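import Pool.Agent.T2H42.PJ.All

/-!
# The permanent of the Kronecker product of two positive semidefinite matrices: a lower bound

`per(A ⊗ B) ≥ (16/(25e))^(nm) (per A)^m (per B)^n` for all positive semidefinite `A` (`n × n`) and `B` (`m × m`), and an explicit
better factor depending on the ranks.
-/

set_option autoImplicit false

open scoped Nat ComplexOrder

namespace Pool.Agent.Results.MP_2dd521_co.AllPsd

open Pool.Agent.T2H42.PJ

/-- Let `A` (`n × n`) and `B` (`m × m`) be complex positive semidefinite matrices. Then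
`(16/(25e))^(nm) (per A)^m (per B)^n ≤ per(A ⊗ B)`. More precisely, if `n, m ≥ 2`, `rank A ≤ r`, `rank B ≤ s`, `r, s ≥ 1`, then
`X (per A)^m (per B)^n ≤ Y per(A ⊗ B)` with `X = 2^(n(m-1)) (nm+r-1)! (n+r-1)!^(m-2) · 2^(m(n-1)) (nm+s-1)! (m+s-1)!^(n-2)` and
`Y = (2n+r-1)!^(m-1) (2m+s-1)!^(n-1) (nm)!`. -/
theorem result (n m : ℕ) (A : Matrix (Fin n) (Fin n) ℂ) (B : Matrix (Fin m) (Fin m) ℂ)
    (hA : A.PosSemidef) (hB : B.PosSemidef) :
    ((((16 : ℝ) / (25 * Real.exp 1)) ^ (n * m) : ℝ) : ℂ) * (A.permanent ^ m * B.permanent ^ n) ≤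
        (Matrix.kronecker A B).permanent ∧
    ∀ r s : ℕ, 2 ≤ n → 2 ≤ m → 1 ≤ r → 1 ≤ s → A.rank ≤ r → B.rank ≤ s →
      ((2 ^ (n * (m - 1)) * ((n * m + r - 1)! * (n + r - 1)! ^ (m - 2)) *
          (2 ^ (m * (n - 1)) * ((n * m + s - 1)! * (m + s - 1)! ^ (n - 2))) : ℕ) : ℂ) *
          (A.permanent ^ m * B.permanent ^ n) ≤
        (((2 * n + r - 1)! ^ (m - 1) * (2 * m + s - 1)! ^ (n - 1) * (n * m)! : ℕ) : ℂ) *
          (Matrix.kronecker A B).permanent :=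
  ⟨allPsd pGRM tJEN2 tTWO pHAD tARIC n m A B hA hB, fun r s hn hm hr hs hrA hrB =>
    explicitAB pGRM tJEN2 tTWO pHAD n m r s A B hn hm hr hs hA hB hrA hrB⟩

end Pool.Agent.Results.MP_2dd521_co.AllPsd
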