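import Pool.Agent.T2H42.PJ.All

/-!
# The Liang-So-Zhang inequality for positive semidefinite matrices of low rank

`(per A)^m (per B)^n ≤ per(A ⊗ B)` for positive semidefinite matrices `A` (`n × n`) and `B` (`m × m`) of low rank.
-/

set_option autoImplicit false

open scoped Nat ComplexOrder

namespace Pool.Agent.Results.MP_2dd521_co.LowRank

open Pool.Agent.T2H42.PJ

/-- Let `A` (`n × n`) and `B` (`m × m`) be complex positive semidefinite matrices with `rank A ≤ r`, `rank B ≤ s`, where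
`n, m, r, s ≥ 1`. Then `(per A)^m (per B)^n ≤ per(A ⊗ B)` in each of the following cases:

* `e (n + 2r - 1)(m + 2s - 1) ≤ 4nm` (for instance if `10 r ≤ n + 5` and `10 s ≤ m + 5`);
* `r = 1` and `2s ≤ m + 1`, or `s = 1` and `2r ≤ n + 1`;
* `(n+r-1)!^m (m+s-1)!^n (nm)! ≤ (nm+r-1)! (r-1)!^(m-1) (nm+s-1)! (s-1)!^(n-1)`. -/
theorem result (n m r s : ℕ) (A : Matrix (Fin n) (Fin n) ℂ) (B : Matrix (Fin m) (Fin m) ℂ)
    (hn : 1 ≤ n) (hm : 1 ≤ m) (hr : 1 ≤ r) (hs : 1 ≤ s) (hA : A.PosSemidef) (hB : B.PosSemidef)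
    (hrA : A.rank ≤ r) (hrB : B.rank ≤ s)
    (h : Real.exp 1 * (((n : ℝ) + 2 * r - 1) * ((m : ℝ) + 2 * s - 1)) ≤ 4 * n * m ∨
      (10 * r ≤ n + 5 ∧ 10 * s ≤ m + 5) ∨
      (r = 1 ∧ 2 * s ≤ m + 1) ∨ (s = 1 ∧ 2 * r ≤ n + 1) ∨
      (n + r - 1)! ^ m * (m + s - 1)! ^ n * (n * m)! ≤
        ((n * m + r - 1)! * (r - 1)! ^ (m - 1)) * ((n * m + s - 1)! * (s - 1)! ^ (n - 1))) :
    A.permanent ^ m * B.permanent ^ n ≤ (Matrix.kronecker A B).permanent := by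
  have h2 : Real.exp 1 * (((n : ℝ) + 2 * r - 1) * ((m : ℝ) + 2 * s - 1)) ≤ 4 * n * m →
      A.permanent ^ m * B.permanent ^ n ≤ (Matrix.kronecker A B).permanent := fun h =>
    pMAIN pGRM tJEN pHAD n m r s A B hn hm hr hs hA hB hrA hrB (pUNI n m r s hn hm hr hs h)
  rcases h with h | h | h | h | h
  · exact h2 h
  · obtain ⟨hr3, hs3⟩ := h
    refine h2 ?_
    have e1 : (10 : ℝ) * r ≤ n + 5 := by exact_mod_cast hr3
    have e2 : (10 : ℝ) * s ≤ m + 5 := by exact_mod_cast hs3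
    have e0 : (1 : ℝ) ≤ r := by exact_mod_cast hr
    have e3 : (1 : ℝ) ≤ s := by exact_mod_cast hs
    have e4 : (5 : ℝ) ≤ n := by linarith
    have e5 : (5 : ℝ) ≤ m := by linarith
    have f1 : (n : ℝ) + 2 * r - 1 ≤ 6 / 5 * n := by linarith
    have f2 : (m : ℝ) + 2 * s - 1 ≤ 6 / 5 * m := by linarith
    have f3 : ((n : ℝ) + 2 * r - 1) * ((m : ℝ) + 2 * s - 1) ≤ (6 / 5 * n) * (6 / 5 * m) :=
      mul_le_mul f1 f2 (by linarith) (by linarith)
    have f4 : Real.exp 1 ≤ 2.7182818286 := Real.exp_one_lt_d9.le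
    have f5 : (0 : ℝ) ≤ n * m := by positivity
    calc Real.exp 1 * (((n : ℝ) + 2 * r - 1) * ((m : ℝ) + 2 * s - 1))
        ≤ Real.exp 1 * ((6 / 5 * n) * (6 / 5 * m)) := mul_le_mul_of_nonneg_left f3 (Real.exp_pos 1).le
      _ = Real.exp 1 * (36 / 25) * (n * m) := by ring
      _ ≤ 4 * (n * m) := mul_le_mul_of_nonneg_right (by linarith) f5
      _ = 4 * n * m := by ring
  · obtain ⟨rfl, h3⟩ := h
    exact rankOne tGEN pARI n m A B hn hm hA hB hrA (by omega)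
  · obtain ⟨rfl, h3⟩ := h
    have := rankOne tGEN pARI m n B A hm hn hB hA hrB (by omega)
    rw [mul_comm, Pool.Agent.Results.MP_2dd521_co.TwoByTwo.kron_comm]
    exact this
  · exact pMAIN pGRM tJEN pHAD n m r s A B hn hm hr hs hA hB hrA hrB h

end Pool.Agent.Results.MP_2dd521_co.LowRank
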